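import Mathlib

open MvPolynomial

namespace Pool.Agent.Results.MP_fa7d23_ag.NefNotB

variable {k : Type*} [Field k] {r : ℕ}

/-- The homogeneous ideal in `k[x₀,x₁,x₂]` of the point of `P²` with homogeneous coordinates `q`. -/
noncomputable def pointIdeal (q : Fin 3 → k) : Ideal (MvPolynomial (Fin 3) k) :=
  Ideal.span (Set.range fun ij : Fin 3 × Fin 3 => C (q ij.1) * X ij.2 - C (q ij.2) * X ij.1)

/-- The vectors `p i` are homogeneous coordinates of `r` distinct points of `P²`. -/
def DistinctPoints (p : Fin r → Fin 3 → k) : Prop :=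
  (∀ i, p i ≠ 0) ∧ ∀ i j, i ≠ j → ∀ c : k, p i ≠ c • p j

/-- Divisor classes on the blow-up of `P²` at `r` points: `(d, m)` stands for `dH - ∑ mᵢEᵢ`. -/
abbrev Cls (r : ℕ) : Type := ℤ × (Fin r → ℤ)

/-- The intersection number of two divisor classes. -/
def inter (D D' : Cls r) : ℤ := D.1 * D'.1 - ∑ i, D.2 i * D'.2 i

/-- The canonical class `K = -3H + ∑ Eᵢ`. -/
def canon (r : ℕ) : Cls r := (-3, fun _ => -1)

/-- `H⁰(X, O_X(dH - ∑ mᵢEᵢ))`: the forms of degree `d` with multiplicity at least `max(mᵢ, 0)`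
at the `i`-th point. -/
noncomputable def H0 (p : Fin r → Fin 3 → k) (D : Cls r) : Submodule k (MvPolynomial (Fin 3) k) :=
  if 0 ≤ D.1 then
    homogeneousSubmodule (Fin 3) k D.1.toNat ⊓
      ⨅ i, ((pointIdeal (p i)) ^ (D.2 i).toNat).restrictScalars k
  else ⊥

/-- `h⁰(D)`. -/
noncomputable def h0 (p : Fin r → Fin 3 → k) (D : Cls r) : ℤ := Module.finrank k (H0 p D)

/-- The Euler characteristic `χ(D) = 1 + D·(D - K)/2`. -/
def chi (D : Cls r) : ℤ := 1 + inter D (D - canon r) / 2

/-- `h¹(D) = h⁰(D) + h⁰(K - D) - χ(D)` (Riemann-Roch and Serre duality). -/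
noncomputable def h1 (p : Fin r → Fin 3 → k) (D : Cls r) : ℤ :=
  h0 p D + h0 p (canon r - D) - chi D

/-- The arithmetic genus `1 + (C² + K·C)/2`. -/
def pa (D : Cls r) : ℤ := 1 + (inter D D + inter (canon r) D) / 2

/-- `|D|` is nonempty. -/
def Effective (p : Fin r → Fin 3 → k) (D : Cls r) : Prop := H0 p D ≠ ⊥

/-- `D` is nef: `D·E ≥ 0` for each exceptional curve and for the proper transform of each
irreducible plane curve `F = 0`, whose class is `nH - ∑ cᵢEᵢ`, `n` the degree of `F` and `cᵢ` the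
exact multiplicity of `F` at the `i`-th point. -/
def Nef (p : Fin r → Fin 3 → k) (D : Cls r) : Prop :=
  (∀ i, 0 ≤ D.2 i) ∧
  ∀ (n : ℕ) (F : MvPolynomial (Fin 3) k) (c : Fin r → ℕ), F.IsHomogeneous n → Irreducible F →
    (∀ i, F ∈ pointIdeal (p i) ^ c i ∧ F ∉ pointIdeal (p i) ^ (c i + 1)) →
    0 ≤ inter D ((n : ℤ), fun i => (c i : ℤ))

/-- Condition (B): there is a curve `C` (nonzero effective divisor) with `|D - C| ≠ ∅`,
`p_a(C) > 0` and `D·C = 0`. -/
def CondB (p : Fin r → Fin 3 → k) (D : Cls r) : Prop :=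
  ∃ E : Cls r, E ≠ 0 ∧ Effective p E ∧ Effective p (D - E) ∧ 0 < pa E ∧ inter D E = 0

/-! ### The rational quartic `x₀⁴ = x₁x₂³` -/

section Quartic

/-- The quartic form `x₀⁴ - x₁x₂³`. -/
noncomputable def Q4 : MvPolynomial (Fin 3) k := X 0 ^ 4 - X 1 * X 2 ^ 3

/-- parametrisation (homogeneous version) -/
noncomputable def phi : MvPolynomial (Fin 3) k →ₐ[k] MvPolynomial (Fin 2) k :=
  aeval ![X 0 * X 1, X 0 ^ 4 * X 1, X 1]

/-- parametrisation (affine version) -/
noncomputable def par : MvPolynomial (Fin 3) k →ₐ[k] Polynomial k :=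
  aeval ![Polynomial.X, Polynomial.X ^ 4, 1]

lemma phi_Q4 : phi (Q4 : MvPolynomial (Fin 3) k) = 0 := by
  simp [phi, Q4]
  ring

lemma phi_monomial (s : Fin 3 →₀ ℕ) (c : k) :
    phi (monomial s c) =
      monomial (Finsupp.single 0 (s 0 + 4 * s 1) + Finsupp.single 1 (s 0 + s 1 + s 2)) c := by
  rw [phi, aeval_monomial, Finsupp.prod_fintype _ _ (by simp)]
  rw [monomial_eq, Finsupp.prod_fintype _ _ (by simp)]
  simp [Fin.prod_univ_three, Fin.prod_univ_two]
  left
  ring

/-- Every polynomial is congruent modulo `Q4` to one with all exponents of `x₀` less than 4. -/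
lemma exists_normal (G : MvPolynomial (Fin 3) k) :
    ∃ N : MvPolynomial (Fin 3) k, (∀ s ∈ N.support, s 0 < 4) ∧ Q4 ∣ G - N := by
  induction G using MvPolynomial.induction_on' with
  | monomial s c =>
    -- strong induction on s 0
    obtain ⟨n, hn⟩ : ∃ n, s 0 = n := ⟨_, rfl⟩
    induction n using Nat.strong_induction_on generalizing s c with
    | _ n ih =>
      by_cases h4 : n < 4
      · refine ⟨monomial s c, ?_, by simp⟩
        intro t ht
        have := support_monomial_subset ht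
        rw [Finset.mem_singleton] at this
        subst this; omega
      · push Not at h4
        -- s = single 0 4 + s'
        set s' : Fin 3 →₀ ℕ := s - Finsupp.single 0 4 with hs'
        have hle : Finsupp.single 0 4 ≤ s := by
          rw [Finsupp.single_le_iff]; omega
        have hs : s = s' + Finsupp.single 0 4 := by
          rw [hs', tsub_add_cancel_of_le hle]
        set s'' : Fin 3 →₀ ℕ := s' + (Finsupp.single 1 1 + Finsupp.single 2 3) with hs''
        have h0 : s'' 0 = n - 4 := by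
          simp [hs'', hs', hn]
        obtain ⟨N, hN, hd⟩ := ih (n - 4) (by omega) s'' c h0
        refine ⟨N, hN, ?_⟩
        have : (monomial s c : MvPolynomial (Fin 3) k) - N
            = monomial s' c * Q4 + (monomial s'' c - N) := by
          have e1 : (monomial s c : MvPolynomial (Fin 3) k) = monomial s' c * X 0 ^ 4 := by
            rw [hs, X_pow_eq_monomial, monomial_mul, mul_one]
          have e2 : (monomial s'' c : MvPolynomial (Fin 3) k)
              = monomial s' c * (X 1 * X 2 ^ 3) := by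
            rw [hs'', X_pow_eq_monomial, X, monomial_mul, monomial_mul, mul_one, mul_one]
          rw [e1, e2, Q4]; ring
        rw [this]
        exact dvd_add (dvd_mul_left _ _) hd
  | add p q hp hq =>
    obtain ⟨N, hN, hd⟩ := hp
    obtain ⟨N', hN', hd'⟩ := hq
    refine ⟨N + N', ?_, ?_⟩
    · intro s hs
      have := support_add hs
      rcases Finset.mem_union.1 this with h | h
      · exact hN s h
      · exact hN' s h
    · have : p + q - (N + N') = (p - N) + (q - N') := by ring
      rw [this]; exact dvd_add hd hd'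

lemma phi_injOn (N : MvPolynomial (Fin 3) k) (hN : ∀ s ∈ N.support, s 0 < 4)
    (h : phi N = 0) : N = 0 := by
  classical
  ext s
  by_cases hs : s ∈ N.support
  · have h1 : phi N = ∑ t ∈ N.support, phi (monomial t (coeff t N)) := by
      conv_lhs => rw [N.as_sum]
      rw [map_sum]
    rw [h] at h1
    have h2 := congrArg
      (coeff (Finsupp.single 0 (s 0 + 4 * s 1) + Finsupp.single 1 (s 0 + s 1 + s 2))) h1
    rw [coeff_zero, coeff_sum, Finset.sum_eq_single s] at h2
    · rw [phi_monomial, coeff_monomial, if_pos rfl] at h2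
      rw [← h2, coeff_zero]
    · intro t ht hts
      rw [phi_monomial, coeff_monomial, if_neg]
      intro heq
      apply hts
      have e0 := DFunLike.congr_fun heq 0
      have e1 := DFunLike.congr_fun heq 1
      simp at e0 e1
      have b1 := hN t ht
      have b2 := hN s hs
      ext i
      fin_cases i <;> simp <;> omega
    · intro h'; exact absurd hs h'
  · rw [notMem_support_iff.1 hs, coeff_zero]

lemma Q4_dvd_of_phi (G : MvPolynomial (Fin 3) k) (h : phi G = 0) : Q4 ∣ G := by
  obtain ⟨N, hN, hd⟩ := exists_normal G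
  have : phi N = 0 := by
    obtain ⟨A, hA⟩ := hd
    have : phi (G - N) = 0 := by rw [hA, map_mul, phi_Q4, zero_mul]
    rw [map_sub, h, zero_sub, neg_eq_zero] at this
    exact this
  rw [phi_injOn N hN this, sub_zero] at hd
  exact hd

lemma Q4_ne_zero : (Q4 : MvPolynomial (Fin 3) k) ≠ 0 := by
  intro h
  have := congrArg (eval ![1, 0, 0]) h
  simp [Q4] at this

lemma Q4_prime : Prime (Q4 : MvPolynomial (Fin 3) k) := by
  refine ⟨Q4_ne_zero, ?_, ?_⟩
  · intro hu
    have := hu.map phi
    rw [phi_Q4] at this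
    exact not_isUnit_zero this
  · intro a b hab
    obtain ⟨c, hc⟩ := hab
    have : phi a * phi b = 0 := by rw [← map_mul, hc, map_mul, phi_Q4, zero_mul]
    rcases mul_eq_zero.1 this with h | h
    · exact Or.inl (Q4_dvd_of_phi a h)
    · exact Or.inr (Q4_dvd_of_phi b h)

lemma Q4_hom : (Q4 : MvPolynomial (Fin 3) k).IsHomogeneous 4 := by
  unfold Q4
  apply IsHomogeneous.sub
  · exact isHomogeneous_X_pow _ _
  · exact (isHomogeneous_X _ _).mul (isHomogeneous_X_pow _ _)

lemma phi_eq_of_hom {G : MvPolynomial (Fin 3) k} {n : ℕ} (hG : G.IsHomogeneous n) :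
    phi G = X 1 ^ n * Polynomial.aeval (X 0 : MvPolynomial (Fin 2) k) (par G) := by
  classical
  conv_lhs => rw [G.as_sum]
  conv_rhs => rw [G.as_sum]
  rw [map_sum, map_sum, map_sum, Finset.mul_sum]
  apply Finset.sum_congr rfl
  intro s hs
  have hdeg : s 0 + s 1 + s 2 = n := by
    have := hG (mem_support_iff.1 hs)
    rw [Finsupp.weight_apply, Finsupp.sum_fintype _ _ (by simp)] at this
    simp [Fin.sum_univ_three] at this
    exact this
  rw [phi, par, aeval_monomial, aeval_monomial, Finsupp.prod_fintype _ _ (by simp),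
    Finsupp.prod_fintype _ _ (by simp)]
  simp [Fin.prod_univ_three]
  rw [← hdeg]
  ring

lemma Q4_dvd_of_par {G : MvPolynomial (Fin 3) k} {n : ℕ} (hG : G.IsHomogeneous n)
    (h : par G = 0) : Q4 ∣ G := by
  apply Q4_dvd_of_phi
  rw [phi_eq_of_hom hG, h, map_zero, mul_zero]

end Quartic

/-! ### Points on the quartic -/

section Points

/-- homogeneous coordinates of the point with parameter `t` -/
def pt (t : k) : Fin 3 → k := ![t, t ^ 4, 1]

lemma par_deg {G : MvPolynomial (Fin 3) k} {n : ℕ} (hG : G.IsHomogeneous n) :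
    (par G).natDegree ≤ 4 * n := by
  classical
  rw [G.as_sum, map_sum]
  apply Polynomial.natDegree_sum_le_of_forall_le
  intro s hs
  have hdeg : s 0 + s 1 + s 2 = n := by
    have := hG (mem_support_iff.1 hs)
    rw [Finsupp.weight_apply, Finsupp.sum_fintype _ _ (by simp)] at this
    simp [Fin.sum_univ_three] at this
    exact this
  rw [par, aeval_monomial, Finsupp.prod_fintype _ _ (by simp)]
  simp only [Fin.prod_univ_three, Matrix.cons_val_zero, Matrix.cons_val_one, Matrix.cons_val,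
    one_pow, mul_one]
  rw [← pow_mul, ← pow_add]
  refine (Polynomial.natDegree_C_mul_X_pow_le _ _).trans ?_
  omega

lemma par_mem {G : MvPolynomial (Fin 3) k} (t : k) {c : ℕ} (hG : G ∈ pointIdeal (pt t) ^ c) :
    (Polynomial.X - Polynomial.C t) ^ c ∣ par G := by
  have h1 : Ideal.map (par : MvPolynomial (Fin 3) k →ₐ[k] Polynomial k) (pointIdeal (pt t)) ≤
      Ideal.span {Polynomial.X - Polynomial.C t} := by
    rw [pointIdeal, Ideal.map_span, Ideal.span_le]
    rintro _ ⟨_, ⟨⟨i, j⟩, rfl⟩, rfl⟩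
    rw [SetLike.mem_coe, Ideal.mem_span_singleton, Polynomial.dvd_iff_isRoot, Polynomial.IsRoot]
    fin_cases i <;> fin_cases j <;> simp [par, pt] <;> ring
  have h2 := Ideal.mem_map_of_mem (par : MvPolynomial (Fin 3) k →ₐ[k] Polynomial k) hG
  rw [Ideal.map_pow] at h2
  have h3 := Ideal.pow_right_mono h1 c h2
  rwa [Ideal.span_singleton_pow, Ideal.mem_span_singleton] at h3

lemma lin0_mem (q : Fin 3 → k) (h : q 2 = 1) : X 0 - C (q 0) * X 2 ∈ pointIdeal q := by
  have : (X 0 - C (q 0) * X 2 : MvPolynomial (Fin 3) k) =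
      (fun ij : Fin 3 × Fin 3 => C (q ij.1) * X ij.2 - C (q ij.2) * X ij.1) (2, 0) := by
    simp [h]
  rw [this]
  exact Ideal.subset_span ⟨_, rfl⟩

lemma lin1_mem (q : Fin 3 → k) (h : q 2 = 1) : X 1 - C (q 1) * X 2 ∈ pointIdeal q := by
  have : (X 1 - C (q 1) * X 2 : MvPolynomial (Fin 3) k) =
      (fun ij : Fin 3 × Fin 3 => C (q ij.1) * X ij.2 - C (q ij.2) * X ij.1) (2, 1) := by
    simp [h]
  rw [this]
  exact Ideal.subset_span ⟨_, rfl⟩

lemma Q4_mem (t : k) : Q4 ∈ pointIdeal (pt t) := by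
  have h0 := lin0_mem (pt t) (by simp [pt])
  have h1 := lin1_mem (pt t) (by simp [pt])
  have : (Q4 : MvPolynomial (Fin 3) k) =
      (X 0 ^ 3 + X 0 ^ 2 * (C t * X 2) + X 0 * (C t * X 2) ^ 2 + (C t * X 2) ^ 3) *
        (X 0 - C (pt t 0) * X 2) - X 2 ^ 3 * (X 1 - C (pt t 1) * X 2) := by
    simp [Q4, pt]
    ring
  rw [this]
  exact Ideal.sub_mem _ (Ideal.mul_mem_left _ _ h0) (Ideal.mul_mem_left _ _ h1)

lemma Q4_notMem_sq (t : k) : Q4 ∉ pointIdeal (pt t) ^ 2 := by
  intro h
  let tg : MvPolynomial (Fin 3) k →ₐ[k] Polynomial k :=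
    aeval ![Polynomial.C t, Polynomial.C (t ^ 4) + Polynomial.X, 1]
  have h1 : Ideal.map tg (pointIdeal (pt t)) ≤ Ideal.span {Polynomial.X} := by
    rw [pointIdeal, Ideal.map_span, Ideal.span_le]
    rintro _ ⟨_, ⟨⟨i, j⟩, rfl⟩, rfl⟩
    rw [SetLike.mem_coe, Ideal.mem_span_singleton, Polynomial.X_dvd_iff,
      Polynomial.coeff_zero_eq_eval_zero]
    fin_cases i <;> fin_cases j <;> simp [tg, pt] <;> ring
  have h2 := Ideal.mem_map_of_mem tg h
  rw [Ideal.map_pow] at h2
  have h3 := Ideal.pow_right_mono h1 2 h2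
  rw [Ideal.span_singleton_pow, Ideal.mem_span_singleton] at h3
  have h4 : tg Q4 = - Polynomial.X := by
    simp [tg, Q4]
  rw [h4] at h3
  rw [dvd_neg, Polynomial.X_pow_dvd_iff] at h3
  have := h3 1 (by norm_num)
  simp at this

end Points

/-! ### Dimension count -/

section Count

/-- translation moving `(u, v, 1)` to `(0, 0, 1)` -/
noncomputable def trans (u v : k) : MvPolynomial (Fin 3) k →ₐ[k] MvPolynomial (Fin 3) k :=
  aeval ![X 0 + C u * X 2, X 1 + C v * X 2, X 2]

lemma trans_neg (u v : k) (F : MvPolynomial (Fin 3) k) : trans (-u) (-v) (trans u v F) = F := by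
  have : (trans (-u) (-v)).comp (trans u v) = AlgHom.id k (MvPolynomial (Fin 3) k) := by
    apply MvPolynomial.algHom_ext
    intro i
    fin_cases i <;> simp [trans]
  exact DFunLike.congr_fun this F

lemma trans_hom (u v : k) {F : MvPolynomial (Fin 3) k} {n : ℕ} (hF : F.IsHomogeneous n) :
    (trans u v F).IsHomogeneous n := by
  have := hF.aeval (n := 1) ![X 0 + C u * X 2, X 1 + C v * X 2, (X 2 : MvPolynomial (Fin 3) k)] ?_
  · rw [one_mul] at this
    exact this
  · intro i
    fin_cases i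
    · exact (isHomogeneous_X _ _).add (isHomogeneous_C_mul_X _ _)
    · exact (isHomogeneous_X _ _).add (isHomogeneous_C_mul_X _ _)
    · exact isHomogeneous_X _ _

/-- exponent vector -/
noncomputable def ex (a b c : ℕ) : Fin 3 →₀ ℕ :=
  Finsupp.single 0 a + Finsupp.single 1 b + Finsupp.single 2 c

lemma ex_apply (a b c : ℕ) : (ex a b c) 0 = a ∧ (ex a b c) 1 = b ∧ (ex a b c) 2 = c := by
  simp [ex]

lemma mem_pow_of_coeff (u v : k) {F : MvPolynomial (Fin 3) k} {n a : ℕ} (hF : F.IsHomogeneous n)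
    (h : ∀ i j : ℕ, j ≤ i → i < a → coeff (ex j (i - j) (n - i)) (trans u v F) = 0) :
    F ∈ pointIdeal ![u, v, 1] ^ a := by
  classical
  have hT := trans_hom u v hF
  rw [← trans_neg u v F, (trans u v F).as_sum, map_sum]
  apply Ideal.sum_mem
  intro s hs
  have hdeg : s 0 + s 1 + s 2 = n := by
    have := hT (mem_support_iff.1 hs)
    rw [Finsupp.weight_apply, Finsupp.sum_fintype _ _ (by simp)] at this
    simp [Fin.sum_univ_three] at this
    exact this
  have hge : a ≤ s 0 + s 1 := by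
    by_contra hlt
    push Not at hlt
    have := h (s 0 + s 1) (s 0) (by omega) hlt
    have hs' : ex (s 0) (s 0 + s 1 - s 0) (n - (s 0 + s 1)) = s := by
      ext i
      have := ex_apply (s 0) (s 0 + s 1 - s 0) (n - (s 0 + s 1))
      fin_cases i
      · exact this.1
      · exact this.2.1.trans (by simp)
      · exact this.2.2.trans (by simp; omega)
    rw [hs'] at this
    exact (mem_support_iff.1 hs) this
  have h0 := lin0_mem ![u, v, 1] (by simp)
  have h1 := lin1_mem ![u, v, 1] (by simp)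
  simp only [Matrix.cons_val_zero, Matrix.cons_val_one] at h0 h1
  rw [trans, aeval_monomial, Finsupp.prod_fintype _ _ (by simp)]
  simp only [Fin.prod_univ_three, Matrix.cons_val_zero, Matrix.cons_val_one, Matrix.cons_val]
  apply Ideal.mul_mem_left
  apply Ideal.mul_mem_right
  apply Ideal.pow_le_pow_right hge
  rw [pow_add]
  apply Ideal.mul_mem_mul
  · apply Ideal.pow_mem_pow
    convert h0 using 1
    simp [sub_eq_add_neg]
  · apply Ideal.pow_mem_pow
    convert h1 using 1
    simp [sub_eq_add_neg]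

/-- index set of size `a(a+1)/2` -/
abbrev Idx (a : ℕ) : Type := Σ i : Fin a, Fin (i.val + 1)

lemma card_idx (a : ℕ) : Fintype.card (Idx a) = (a + 1).choose 2 := by
  rw [Fintype.card_sigma]
  simp only [Fintype.card_fin]
  rw [Fin.sum_univ_eq_sum_range (fun i => i + 1) a]
  induction a with
  | zero => simp
  | succ n ih => rw [Finset.sum_range_succ, ih, Nat.choose_succ_succ (n + 1) 1]; simp; omega

instance finite_hom (n : ℕ) : Module.Finite k (homogeneousSubmodule (Fin 3) k n) :=
  Module.Finite.iff_fg.2 (homogeneousSubmodule_fg (Fin 3) k n)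

lemma finrank_hom_ge (n : ℕ) :
    (n + 2).choose 2 ≤ Module.finrank k (homogeneousSubmodule (Fin 3) k n) := by
  classical
  rw [← card_idx (n + 1)]
  let g : Idx (n + 1) → (Fin 3 →₀ ℕ) := fun x => ex x.2.val (x.1.val - x.2.val) (n - x.1.val)
  have hg : Function.Injective g := by
    rintro ⟨i, j⟩ ⟨i', j'⟩ h
    have e := ex_apply j.val (i.val - j.val) (n - i.val)
    have e' := ex_apply j'.val (i'.val - j'.val) (n - i'.val)
    have h' : ex j.val (i.val - j.val) (n - i.val) = ex j'.val (i'.val - j'.val) (n - i'.val) := h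
    rw [h'] at e
    obtain ⟨e1, e2, e3⟩ := e
    obtain ⟨e1', e2', e3'⟩ := e'
    have hi := i.2
    have hi' := i'.2
    have hj := j.2
    have hj' := j'.2
    have : i = i' := by
      apply Fin.ext; omega
    subst this
    have : j = j' := by
      apply Fin.ext; omega
    subst this
    rfl
  have hmem : ∀ x : Idx (n + 1), (monomial (g x) (1 : k)) ∈ homogeneousSubmodule (Fin 3) k n := by
    intro x
    apply isHomogeneous_monomial
    have hi := x.1.2
    have hj := x.2.2
    simp only [g, ex, map_add, Finsupp.degree_single]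
    omega
  have hli : LinearIndependent k
      (fun x : Idx (n + 1) => (⟨monomial (g x) (1 : k), hmem x⟩ :
        homogeneousSubmodule (Fin 3) k n)) := by
    apply LinearIndependent.of_comp (homogeneousSubmodule (Fin 3) k n).subtype
    have := (basisMonomials (Fin 3) k).linearIndependent.comp g hg
    convert this using 1
    ext1 x
    simp
  exact hli.fintype_card_le_finrank

lemma H0_coe (p : Fin r → Fin 3 → k) (n : ℕ) (a : Fin r → ℕ) :
    H0 p ((n : ℤ), fun i => (a i : ℤ)) =
      homogeneousSubmodule (Fin 3) k n ⊓ ⨅ i, ((pointIdeal (p i)) ^ (a i)).restrictScalars k := by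
  simp [H0]

lemma mem_H0_coe (p : Fin r → Fin 3 → k) (n : ℕ) (a : Fin r → ℕ) (F : MvPolynomial (Fin 3) k) :
    F ∈ H0 p ((n : ℤ), fun i => (a i : ℤ)) ↔
      F.IsHomogeneous n ∧ ∀ i, F ∈ (pointIdeal (p i)) ^ (a i) := by
  rw [H0_coe]
  simp [Submodule.mem_inf, Submodule.mem_iInf]

lemma H0_le (p : Fin r → Fin 3 → k) (D : Cls r) :
    H0 p D ≤ homogeneousSubmodule (Fin 3) k D.1.toNat := by
  unfold H0
  split_ifs
  · exact inf_le_left
  · exact bot_le

instance finite_H0 (p : Fin r → Fin 3 → k) (D : Cls r) : Module.Finite k (H0 p D) :=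
  Submodule.finiteDimensional_of_le (H0_le p D)

lemma H0_ge (u v : Fin r → k) (n : ℕ) (a : Fin r → ℕ) :
    (n + 2).choose 2 ≤
      Module.finrank k (H0 (fun i => ![u i, v i, 1]) ((n : ℤ), fun i => (a i : ℤ)))
        + ∑ i, (a i + 1).choose 2 := by
  classical
  let f : homogeneousSubmodule (Fin 3) k n →ₗ[k] ((Σ i, Idx (a i)) → k) :=
    LinearMap.pi fun x =>
      (lcoeff k (ex x.2.2.val (x.2.1.val - x.2.2.val) (n - x.2.1.val))).comp
        ((trans (u x.1) (v x.1)).toLinearMap.comp (homogeneousSubmodule (Fin 3) k n).subtype)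
  have h1 := LinearMap.finrank_range_add_finrank_ker f
  have h2 : Module.finrank k (LinearMap.range f) ≤ ∑ i, (a i + 1).choose 2 := by
    refine (Submodule.finrank_le _).trans ?_
    rw [Module.finrank_fintype_fun_eq_card, Fintype.card_sigma]
    simp only [card_idx]
    exact le_refl _
  have h3 : Module.finrank k (LinearMap.ker f) ≤
      Module.finrank k (H0 (fun i => ![u i, v i, 1]) ((n : ℤ), fun i => (a i : ℤ))) := by
    have : Submodule.map (homogeneousSubmodule (Fin 3) k n).subtype (LinearMap.ker f) ≤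
        H0 (fun i => ![u i, v i, 1]) ((n : ℤ), fun i => (a i : ℤ)) := by
      rintro _ ⟨F, hF, rfl⟩
      rw [mem_H0_coe]
      refine ⟨F.2, fun i => ?_⟩
      apply mem_pow_of_coeff (u i) (v i) (n := n) F.2
      intro b c hcb hba
      have := congrFun (LinearMap.mem_ker.1 hF) ⟨i, ⟨⟨b, hba⟩, ⟨c, by simpa using Nat.lt_succ_of_le hcb⟩⟩⟩
      simpa [f, lcoeff] using this
    have h4 := Submodule.finrank_mono this
    rwa [Submodule.finrank_map_subtype_eq] at h4
  have h4 := finrank_hom_ge (k := k) n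
  omega

end Count

/-! ### The configuration -/

section Config

/-- the univariate polynomial whose roots are the parameters of the first twelve points -/
noncomputable def P12 (b : Fin 3 → k) : Polynomial k :=
  ∏ j, (Polynomial.X ^ 4 - Polynomial.X - Polynomial.C (b j))

/-- the cubic form (three lines) through the first twelve points -/
noncomputable def cub (b : Fin 3 → k) : MvPolynomial (Fin 3) k :=
  ∏ j, (X 1 - X 0 - C (b j) * X 2)

lemma par_cub (b : Fin 3 → k) : par (cub b) = P12 b := by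
  simp [par, cub, P12, Fin.prod_univ_three]

lemma cub_hom (b : Fin 3 → k) : (cub b).IsHomogeneous 3 := by
  have : (cub b).IsHomogeneous (∑ _j : Fin 3, 1) := by
    apply IsHomogeneous.prod
    intro i _
    exact ((isHomogeneous_X _ _).sub (isHomogeneous_X _ _)).sub (isHomogeneous_C_mul_X _ _)
  simpa using this

lemma P12_monic (b : Fin 3 → k) : (P12 b).Monic := by
  unfold P12
  apply Polynomial.monic_prod_of_monic
  intro j _
  monicity!

lemma P12_natDegree (b : Fin 3 → k) : (P12 b).natDegree = 12 := by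
  unfold P12
  rw [Polynomial.natDegree_prod_of_monic]
  · have : ∀ j : Fin 3, (Polynomial.X ^ 4 - Polynomial.X - Polynomial.C (b j)).natDegree = 4 := by
      intro j
      compute_degree!
    simp [this]
  · intro j _
    monicity!

lemma P12_nodup {b : Fin 3 → k} (hb : Function.Injective b)
    (hs : ∀ j, ∀ T : k, T ^ 4 - T = b j → 4 * T ^ 3 - 1 ≠ 0) : (P12 b).roots.Nodup := by
  classical
  rw [Multiset.nodup_iff_count_le_one]
  intro T
  rw [Polynomial.count_roots]
  by_contra hlt
  push Not at hlt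
  rw [Polynomial.one_lt_rootMultiplicity_iff_isRoot (P12_monic b).ne_zero] at hlt
  obtain ⟨h2, h1⟩ := hlt
  have b01 : b 0 - b 1 ≠ 0 := sub_ne_zero.2 (hb.ne (by decide))
  have b02 : b 0 - b 2 ≠ 0 := sub_ne_zero.2 (hb.ne (by decide))
  have b12 : b 1 - b 2 ≠ 0 := sub_ne_zero.2 (hb.ne (by decide))
  simp only [Polynomial.IsRoot, P12, Fin.prod_univ_three, Polynomial.derivative_mul,
    Polynomial.derivative_sub, Polynomial.derivative_X_pow, Polynomial.derivative_X,
    Polynomial.derivative_C, Polynomial.eval_add, Polynomial.eval_mul, Polynomial.eval_sub,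
    Polynomial.eval_pow, Polynomial.eval_X, Polynomial.eval_C, Polynomial.eval_one,
    sub_zero] at h1 h2
  rcases mul_eq_zero.1 h2 with h2 | h2
  · rcases mul_eq_zero.1 h2 with h2 | h2
    · have e : T ^ 4 - T = b 0 := sub_eq_zero.1 h2
      rw [e] at h1
      have hne := hs 0 T e
      have : (4 * T ^ 3 - 1) * (b 0 - b 1) * (b 0 - b 2) = 0 := by
        rw [← h1]; push_cast; ring
      simp [hne, b01, b02] at this
    · have e : T ^ 4 - T = b 1 := sub_eq_zero.1 h2
      rw [e] at h1
      have hne := hs 1 T e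
      have : (4 * T ^ 3 - 1) * (b 0 - b 1) * (b 1 - b 2) = 0 := by
        rw [← neg_eq_zero, ← h1]; push_cast; ring
      simp [hne, b01, b12] at this
  · have e : T ^ 4 - T = b 2 := sub_eq_zero.1 h2
    rw [e] at h1
    have hne := hs 2 T e
    have : (4 * T ^ 3 - 1) * (b 0 - b 2) * (b 1 - b 2) = 0 := by
      rw [← h1]; push_cast; ring
    simp [hne, b02, b12] at this

lemma exists_config (k : Type*) [Field k] [IsAlgClosed k] :
    ∃ (b : Fin 3 → k) (t : Fin 12 → k) (u : Fin 3 → k),
      P12 b = ∏ i, (Polynomial.X - Polynomial.C (t i)) ∧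
      Function.Injective (Fin.append t u : Fin (12 + 3) → k) ∧
      (u 0 + u 1 + u 2) ^ 2 ≠ u 0 * u 1 + u 0 * u 2 + u 1 * u 2 := by
  classical
  have : Infinite k := IsAlgClosed.instInfinite
  -- bad values for separability
  let q : Polynomial k := Polynomial.C 4 * Polynomial.X ^ 3 - 1
  have hq : q ≠ 0 := by
    intro h
    have := congrArg (Polynomial.eval 0) h
    simp [q] at this
  let bad : Finset k := insert 0 (q.roots.toFinset.image fun T => T ^ 4 - T)
  have hbad : ∀ b : k, b ∉ bad → ∀ T : k, T ^ 4 - T = b → 4 * T ^ 3 - 1 ≠ 0 := by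
    intro b hb T hT h
    apply hb
    simp only [bad, Finset.mem_insert, Finset.mem_image, Multiset.mem_toFinset]
    right
    refine ⟨T, ?_, hT⟩
    rw [Polynomial.mem_roots hq]
    simpa [q] using h
  obtain ⟨b0, hb0⟩ := Infinite.exists_notMem_finset bad
  obtain ⟨b1, hb1⟩ := Infinite.exists_notMem_finset (insert b0 bad)
  obtain ⟨b2, hb2⟩ := Infinite.exists_notMem_finset (insert b0 (insert b1 bad))
  simp only [Finset.mem_insert, not_or] at hb1 hb2
  let b : Fin 3 → k := ![b0, b1, b2]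
  have hbinj : Function.Injective b := by
    intro i j hij
    fin_cases i <;> fin_cases j <;> simp [b] at hij ⊢
    · exact hb1.1 hij.symm
    · exact hb2.1 hij.symm
    · exact hb1.1 hij
    · exact hb2.2.1 hij.symm
    · exact hb2.1 hij
    · exact hb2.2.1 hij
  have hs : ∀ j, ∀ T : k, T ^ 4 - T = b j → 4 * T ^ 3 - 1 ≠ 0 := by
    intro j
    fin_cases j
    · exact hbad b0 hb0
    · exact hbad b1 hb1.2
    · exact hbad b2 hb2.2.2
  have hnd := P12_nodup hbinj hs
  have hcard : (P12 b).roots.card = 12 := by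
    rw [← P12_natDegree b]
    exact (Polynomial.splits_iff_card_roots).1 (IsAlgClosed.splits _)
  have hcardF : (P12 b).roots.toFinset.card = 12 := by
    rw [Multiset.toFinset_card_of_nodup hnd, hcard]
  let e := (P12 b).roots.toFinset.equivFinOfCardEq hcardF
  let t : Fin 12 → k := fun i => (e.symm i : k)
  have htinj : Function.Injective t := fun i j h => e.symm.injective (Subtype.ext h)
  have hprod : P12 b = ∏ i, (Polynomial.X - Polynomial.C (t i)) := by
    rw [← Polynomial.prod_multiset_X_sub_C_of_monic_of_roots_card_eq (P12_monic b)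
      (by rw [hcard, P12_natDegree])]
    have h1 : (Multiset.map (fun a => Polynomial.X - Polynomial.C a) (P12 b).roots).prod =
        ∏ a ∈ (P12 b).roots.toFinset, (Polynomial.X - Polynomial.C a) := by
      rw [Finset.prod, Multiset.toFinset_val, Multiset.dedup_eq_self.2 hnd]
    rw [h1, ← Finset.prod_coe_sort, ← e.symm.prod_comp]
  -- the remaining three points
  have hzero : ∀ i, t i ≠ 0 := by
    intro i h
    have h2 : (P12 b).eval (t i) = 0 := by
      rw [hprod, Polynomial.eval_prod]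
      exact Finset.prod_eq_zero (Finset.mem_univ i) (by simp)
    rw [h] at h2
    simp only [P12, Fin.prod_univ_three, Polynomial.eval_mul, Polynomial.eval_sub,
      Polynomial.eval_pow, Polynomial.eval_X, Polynomial.eval_C] at h2
    have c0 : b 0 ≠ 0 := by
      intro h; apply hb0; simp only [bad, Finset.mem_insert]; left; exact h
    have c1 : b 1 ≠ 0 := by
      intro h; apply hb1.2; simp only [bad, Finset.mem_insert]; left; exact h
    have c2 : b 2 ≠ 0 := by
      intro h; apply hb2.2.2; simp only [bad, Finset.mem_insert]; left; exact h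
    simp [c0, c1, c2] at h2
  obtain ⟨v, hv⟩ := Infinite.exists_notMem_finset (insert 0 (Finset.univ.image t))
  let q2 : Polynomial k := Polynomial.X ^ 2 + Polynomial.C v * Polynomial.X + Polynomial.C (v ^ 2)
  have hq2 : q2 ≠ 0 := by
    have : q2.Monic := by
      simp only [q2]
      monicity!
    exact this.ne_zero
  obtain ⟨w, hw⟩ := Infinite.exists_notMem_finset
    (insert 0 (insert v (Finset.univ.image t ∪ q2.roots.toFinset)))
  simp only [Finset.mem_insert, Finset.mem_image, Finset.mem_univ, true_and, not_or, not_exists,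
    Finset.mem_union, Multiset.mem_toFinset] at hv hw
  refine ⟨b, t, ![0, v, w], hprod, ?_, ?_⟩
  · rw [Fin.append_injective_iff]
    refine ⟨htinj, ?_, ?_⟩
    · intro i j hij
      fin_cases i <;> fin_cases j <;> simp at hij ⊢
      · exact hv.1 hij.symm
      · exact hw.1 hij.symm
      · exact hv.1 hij
      · exact hw.2.1 hij.symm
      · exact hw.1 hij
      · exact hw.2.1 hij
    · intro i j
      fin_cases j
      · exact hzero i
      · exact hv.2 i
      · exact hw.2.2.1 i
  · intro h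
    apply hw.2.2.2
    rw [Polynomial.mem_roots hq2]
    simp [q2] at h ⊢
    linear_combination h

lemma par_coeff_zero {F : MvPolynomial (Fin 3) k} (hF : F.IsHomogeneous 4) (e : ℕ)
    (he : ∀ i j : ℕ, i + j ≤ 4 → i + 4 * j ≠ e) : (par F).coeff e = 0 := by
  classical
  rw [F.as_sum, map_sum, Polynomial.finsetSum_coeff]
  apply Finset.sum_eq_zero
  intro s hs
  have hdeg : s 0 + s 1 + s 2 = 4 := by
    have := hF (mem_support_iff.1 hs)
    rw [Finsupp.weight_apply, Finsupp.sum_fintype _ _ (by simp)] at this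
    simp [Fin.sum_univ_three] at this
    exact this
  rw [par, aeval_monomial, Finsupp.prod_fintype _ _ (by simp)]
  simp only [Fin.prod_univ_three, Matrix.cons_val_zero, Matrix.cons_val_one, Matrix.cons_val,
    one_pow, mul_one]
  rw [← pow_mul, ← pow_add, Polynomial.algebraMap_eq, Polynomial.coeff_C_mul_X_pow, if_neg]
  intro h
  exact he (s 0) (s 1) (by omega) h.symm

/-- The quartic is the only quartic form vanishing at the fifteen points. -/
lemma unique_quartic {b : Fin 3 → k} {t : Fin 12 → k} {u : Fin 3 → k}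
    (hP : P12 b = ∏ i, (Polynomial.X - Polynomial.C (t i)))
    (hinj : Function.Injective (Fin.append t u : Fin (12 + 3) → k))
    (hu : (u 0 + u 1 + u 2) ^ 2 ≠ u 0 * u 1 + u 0 * u 2 + u 1 * u 2)
    {F : MvPolynomial (Fin 3) k} (hF : F.IsHomogeneous 4)
    (hv : ∀ i, F ∈ pointIdeal (pt ((Fin.append t u : Fin (12 + 3) → k) i))) : Q4 ∣ F := by
  apply Q4_dvd_of_par hF
  have hdvd : (∏ i, (Polynomial.X - Polynomial.C ((Fin.append t u : Fin (12 + 3) → k) i))) ∣
      par F := by
    apply Finset.prod_dvd_of_coprime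
    · exact (Polynomial.pairwise_coprime_X_sub_C hinj).set_pairwise _
    · intro i _
      have := par_mem (G := F) _ (c := 1) (by rw [pow_one]; exact hv i)
      rwa [pow_one] at this
  rw [Fin.prod_univ_add] at hdvd
  simp only [Fin.append_left, Fin.append_right] at hdvd
  rw [← hP] at hdvd
  obtain ⟨A, hA⟩ := hdvd
  have hAdeg : A.natDegree ≤ 1 := by
    by_cases hA0 : A = 0
    · simp [hA0]
    have h3 : (∏ i, (Polynomial.X - Polynomial.C (u i))).natDegree = 3 := by
      rw [Polynomial.natDegree_prod_of_monic]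
      · simp
      · intro i _; exact Polynomial.monic_X_sub_C _
    have h3m : (∏ i, (Polynomial.X - Polynomial.C (u i))).Monic :=
      Polynomial.monic_prod_of_monic _ _ fun i _ => Polynomial.monic_X_sub_C _
    have hd := par_deg hF
    rw [hA, Polynomial.natDegree_mul (mul_ne_zero (P12_monic b).ne_zero h3m.ne_zero) hA0,
      Polynomial.natDegree_mul (P12_monic b).ne_zero h3m.ne_zero, P12_natDegree, h3] at hd
    omega
  obtain ⟨α, β, hAe⟩ : ∃ α β : k, A = Polynomial.C α * Polynomial.X + Polynomial.C β :=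
    ⟨_, _, Polynomial.eq_X_add_C_of_natDegree_le_one hAdeg⟩
  set s1 := u 0 + u 1 + u 2 with hs1
  set s2 := u 0 * u 1 + u 0 * u 2 + u 1 * u 2 with hs2
  set s3 := u 0 * u 1 * u 2 with hs3
  set W : Polynomial k := Polynomial.C α * Polynomial.X ^ 4 +
    Polynomial.C (β - α * s1) * Polynomial.X ^ 3 +
    Polynomial.C (α * s2 - β * s1) * Polynomial.X ^ 2 +
    Polynomial.C (β * s2 - α * s3) * Polynomial.X + Polynomial.C (- β * s3) with hW
  have hWe : (∏ i, (Polynomial.X - Polynomial.C (u i))) * A = W := by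
    rw [hAe, hW, Fin.prod_univ_three, hs1, hs2, hs3]
    simp only [map_sub, map_add, map_mul, map_neg]
    ring
  -- the lower part of `P12`
  set R : Polynomial k := - Polynomial.X ^ 8 * (3 * Polynomial.X + Polynomial.C (b 0 + b 1 + b 2)) +
    Polynomial.X ^ 4 * ((Polynomial.X + Polynomial.C (b 0)) * (Polynomial.X + Polynomial.C (b 1)) +
      (Polynomial.X + Polynomial.C (b 0)) * (Polynomial.X + Polynomial.C (b 2)) +
      (Polynomial.X + Polynomial.C (b 1)) * (Polynomial.X + Polynomial.C (b 2))) -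
    (Polynomial.X + Polynomial.C (b 0)) * (Polynomial.X + Polynomial.C (b 1)) *
      (Polynomial.X + Polynomial.C (b 2)) with hR
  have hPR : P12 b = Polynomial.X ^ 12 + R := by
    rw [hR, P12, Fin.prod_univ_three]
    simp only [map_add]
    ring
  have hRdeg : R.natDegree ≤ 9 := by
    rw [hR]
    compute_degree
  have hWdeg : W.natDegree ≤ 4 := by
    rw [hW]
    compute_degree
  have hpar : par F = Polynomial.X ^ 12 * W + R * W := by
    rw [hA, mul_assoc, hWe, hPR]; ring
  have hRW : ∀ e, 13 < e → (R * W).coeff e = 0 := by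
    intro e he
    apply Polynomial.coeff_eq_zero_of_natDegree_lt
    have := Polynomial.natDegree_mul_le (p := R) (q := W)
    omega
  have c15 : (par F).coeff 15 = 0 := by
    apply par_coeff_zero hF
    intro i j h; omega
  have c14 : (par F).coeff 14 = 0 := by
    apply par_coeff_zero hF
    intro i j h; omega
  rw [hpar, Polynomial.coeff_add, hRW _ (by norm_num), add_zero,
    show (15 : ℕ) = 3 + 12 from rfl, Polynomial.coeff_X_pow_mul] at c15
  rw [hpar, Polynomial.coeff_add, hRW _ (by norm_num), add_zero,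
    show (14 : ℕ) = 2 + 12 from rfl, Polynomial.coeff_X_pow_mul] at c14
  have w3 : W.coeff 3 = β - α * s1 := by
    rw [hW]
    simp [-map_sub, -map_mul, -map_neg]
  have w2 : W.coeff 2 = α * s2 - β * s1 := by
    rw [hW]
    simp [-map_sub, -map_mul, -map_neg]
  rw [w3] at c15
  rw [w2] at c14
  have hα : α = 0 := by
    have h1 : α * (s2 - s1 ^ 2) = 0 := by linear_combination c14 + s1 * c15
    rcases mul_eq_zero.1 h1 with h | h
    · exact h
    · exact absurd (sub_eq_zero.1 h).symm hu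
  have hβ : β = 0 := by
    rw [hα] at c15
    simpa using c15
  rw [hA, hAe, hα, hβ]
  simp

end Config

/-! ### Main theorem -/

section Main

/-- the class `4H - ∑ Eᵢ` at fifteen points -/
def L15 : Cls 15 := (4, fun _ => 1)

lemma smul_L15 (m : ℕ) : m • L15 = (((4 * m : ℕ) : ℤ), fun _ => ((m : ℕ) : ℤ)) := by
  ext i
  · simp [L15]; ring
  · simp [L15]

lemma eq_zero_of_const_mem {q : Fin 3 → k} {s : ℕ} {a : k} (ha : a ≠ 0)
    (h : (C a : MvPolynomial (Fin 3) k) ∈ pointIdeal q ^ s) : s = 0 := by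
  by_contra hs
  have h1 : (C a : MvPolynomial (Fin 3) k) ∈ pointIdeal q := Ideal.pow_le_self hs h
  have h2 : pointIdeal q ≤ RingHom.ker (eval q) := by
    rw [pointIdeal, Ideal.span_le]
    rintro _ ⟨⟨i, j⟩, rfl⟩
    rw [SetLike.mem_coe, RingHom.mem_ker]
    simp
    ring
  have := h2 h1
  rw [RingHom.mem_ker, eval_C] at this
  exact ha this

lemma const_of_hom_zero {G : MvPolynomial (Fin 3) k} (hG : G.IsHomogeneous 0) :
    ∃ a, G = C a := by
  exact ⟨_, totalDegree_eq_zero_iff_eq_C.1 (Nat.le_zero.1 hG.totalDegree_le)⟩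

/-- a form of degree at most 4 divisible by `Q4` is a scalar multiple of `Q4` -/
lemma scalar_of_dvd {G : MvPolynomial (Fin 3) k} {n : ℕ} (hG : G.IsHomogeneous n) (h0 : G ≠ 0)
    (hn : n ≤ 4) (hd : Q4 ∣ G) : n = 4 ∧ ∃ a : k, a ≠ 0 ∧ G = C a * Q4 := by
  obtain ⟨A, rfl⟩ := hd
  have hA : A ≠ 0 := right_ne_zero_of_mul h0
  have h1 := hG.totalDegree h0
  rw [totalDegree_mul_of_isDomain Q4_ne_zero hA, Q4_hom.totalDegree Q4_ne_zero] at h1
  refine ⟨by omega, ?_⟩
  have h2 : A.totalDegree = 0 := by omega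
  rw [totalDegree_eq_zero_iff_eq_C] at h2
  refine ⟨coeff 0 A, ?_, ?_⟩
  · intro h
    rw [h, C_0] at h2
    exact hA h2
  · rw [← h2]; ring

lemma le_one_of_mem {t a : k} (ha : a ≠ 0) {s : ℕ}
    (h : C a * Q4 ∈ pointIdeal (pt t) ^ s) : s ≤ 1 := by
  by_contra hs
  push Not at hs
  have h1 : Q4 ∈ pointIdeal (pt t) ^ s := by
    have : (Q4 : MvPolynomial (Fin 3) k) = C a⁻¹ * (C a * Q4) := by
      rw [← mul_assoc, ← C_mul, inv_mul_cancel₀ ha, C_1, one_mul]
    rw [this]
    exact Ideal.mul_mem_left _ _ h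
  exact Q4_notMem_sq t (Ideal.pow_le_pow_right hs h1)

lemma mem_H0 (p : Fin r → Fin 3 → k) (D : Cls r) (F : MvPolynomial (Fin 3) k) (hF0 : F ≠ 0) :
    F ∈ H0 p D ↔ 0 ≤ D.1 ∧ F.IsHomogeneous D.1.toNat ∧
      ∀ i, F ∈ (pointIdeal (p i)) ^ (D.2 i).toNat := by
  unfold H0
  split_ifs with h
  · simp [Submodule.mem_inf, Submodule.mem_iInf, h]
  · simp [hF0, h]

lemma pt_ne_zero (t : k) : pt t ≠ 0 := by
  intro h
  have := congrFun h 2
  simp [pt] at this

lemma key_choose (x : ℕ) : 2 * ((x + 1).choose 2 : ℤ) = (x + 1) * x := by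
  have h2 : (x + 1).choose 2 * 2 = (x + 1) * x := by
    rw [Nat.choose_two_right]
    have := Nat.even_mul_pred_self (x + 1)
    simpa using Nat.div_mul_cancel this.two_dvd
  have : (((x + 1).choose 2 * 2 : ℕ) : ℤ) = (((x + 1) * x : ℕ) : ℤ) := by rw [h2]
  push_cast at this
  linarith

/-- Sanity check (not used below): for `d = n ≥ 0` and `mᵢ = aᵢ ≥ 0` the number `h1` is the
superabundance of the system, i.e. the number by which the conditions imposed by the fat points
`aᵢpᵢ` on forms of degree `n` fail to be independent. -/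
lemma h1_eq_superabundance (p : Fin r → Fin 3 → k) (n : ℕ) (a : Fin r → ℕ) :
    h1 p ((n : ℤ), fun i => (a i : ℤ)) =
      Module.finrank k (H0 p ((n : ℤ), fun i => (a i : ℤ))) -
        (((n + 2).choose 2 : ℤ) - ∑ i, ((a i + 1).choose 2 : ℤ)) := by
  have e0 : h0 p (canon r - ((n : ℤ), fun i => (a i : ℤ))) = 0 := by
    unfold h0 H0
    have : ¬ (0 : ℤ) ≤ (canon r - ((n : ℤ), fun i => (a i : ℤ))).1 := by
      simp [canon]; omega
    rw [if_neg this]
    simp
  have k1 := key_choose (n + 1)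
  have k2 : 2 * ∑ i, ((a i + 1).choose 2 : ℤ) = ∑ i, ((a i : ℤ) + 1) * a i := by
    rw [Finset.mul_sum]
    exact Finset.sum_congr rfl fun i _ => key_choose (a i)
  have e1 : inter ((n : ℤ), fun i => (a i : ℤ)) (((n : ℤ), fun i => (a i : ℤ)) - canon r) =
      2 * (((n + 2).choose 2 : ℤ) - ∑ i, ((a i + 1).choose 2 : ℤ) - 1) := by
    have : inter ((n : ℤ), fun i => (a i : ℤ)) (((n : ℤ), fun i => (a i : ℤ)) - canon r) =
        (n : ℤ) * (n + 3) - ∑ i, ((a i : ℤ) + 1) * a i := by
      simp only [inter, canon, Prod.fst_sub, Prod.snd_sub, Pi.sub_apply, sub_neg_eq_add]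
      congr 1
      exact Finset.sum_congr rfl fun i _ => by ring
    rw [this, ← k2]
    push_cast at k1
    linear_combination -k1
  unfold h1 chi
  rw [e0, e1, Int.mul_ediv_cancel_left _ (by norm_num)]
  unfold h0
  ring

lemma two_chi (n : ℕ) :
    2 * chi (((4 * (n + 1) : ℕ) : ℤ), fun _ : Fin 15 => ((n + 1 : ℕ) : ℤ)) =
      2 + ((n : ℤ) + 1) * (n - 2) := by
  have hev : (2 : ℤ) ∣ ((n : ℤ) + 1) * (n - 2) := by
    have : ((n : ℤ) + 1) * (n - 2) = (n + 1) * n - 2 * (n + 1) := by ring
    rw [this]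
    apply dvd_sub
    · rw [mul_comm]; exact (Int.even_mul_succ_self n).two_dvd
    · exact dvd_mul_right _ _
  have hi : inter (((4 * (n + 1) : ℕ) : ℤ), fun _ : Fin 15 => ((n + 1 : ℕ) : ℤ))
      ((((4 * (n + 1) : ℕ) : ℤ), fun _ : Fin 15 => ((n + 1 : ℕ) : ℤ)) - canon 15) =
      ((n : ℤ) + 1) * (n - 2) := by
    simp [inter, canon]
    ring
  rw [chi, hi]
  obtain ⟨z, hz⟩ := hev
  rw [hz]
  omega

lemma h1_pos_of (p : Fin 15 → Fin 3 → k) (n N' : ℕ)
    (h1' : (4 * n + 2 + 1).choose 2 ≤ N' + (12 * (n + 1).choose 2 + 3 * (n + 1 + 1).choose 2))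
    (h2' : N' + 1 ≤ Module.finrank k
      (H0 p (((4 * (n + 1) : ℕ) : ℤ), fun _ : Fin 15 => ((n + 1 : ℕ) : ℤ)))) :
    0 < h1 p (((4 * (n + 1) : ℕ) : ℤ), fun _ : Fin 15 => ((n + 1 : ℕ) : ℤ)) := by
  have k1 := key_choose (4 * n + 2)
  have k2 := key_choose n
  have k3 := key_choose (n + 1)
  have hge2 : ((4 * n + 2 + 1).choose 2 : ℤ) ≤ N' +
      (12 * (n + 1).choose 2 + 3 * (n + 1 + 1).choose 2) := by exact_mod_cast h1'
  have hc := two_chi n
  have hh : (0 : ℤ) ≤ h0 p
      (canon 15 - (((4 * (n + 1) : ℕ) : ℤ), fun _ : Fin 15 => ((n + 1 : ℕ) : ℤ))) :=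
    Int.natCast_nonneg _
  have hh0 : (N' : ℤ) + 1 ≤
      h0 p (((4 * (n + 1) : ℕ) : ℤ), fun _ : Fin 15 => ((n + 1 : ℕ) : ℤ)) := by
    unfold h0
    exact_mod_cast h2'
  unfold h1
  generalize h0 p (canon 15 - (((4 * (n + 1) : ℕ) : ℤ), fun _ : Fin 15 => ((n + 1 : ℕ) : ℤ))) = A
    at *
  generalize h0 p (((4 * (n + 1) : ℕ) : ℤ), fun _ : Fin 15 => ((n + 1 : ℕ) : ℤ)) = B at *
  generalize chi (((4 * (n + 1) : ℕ) : ℤ), fun _ : Fin 15 => ((n + 1 : ℕ) : ℤ)) = Z at *
  push_cast at k1 k2 k3 hge2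
  nlinarith

section Parts

variable {b : Fin 3 → k} {t : Fin 12 → k} {u : Fin 3 → k}

/-- the fifteen points -/
def cfg (t : Fin 12 → k) (u : Fin 3 → k) : Fin 15 → Fin 3 → k :=
  fun i => pt ((Fin.append t u : Fin (12 + 3) → k) i)

lemma cfg_distinct (hinj : Function.Injective (Fin.append t u : Fin (12 + 3) → k)) :
    DistinctPoints (cfg t u) := by
  refine ⟨fun i => pt_ne_zero _, ?_⟩
  intro i j hij c hc
  have h2 := congrFun hc 2
  have h0 := congrFun hc 0
  simp [cfg, pt] at h2 h0
  rw [← h2, one_mul] at h0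
  exact hij (hinj h0)

lemma cfg_effective : Effective (cfg t u) (4, fun _ => 1) := by
  intro h
  have : Q4 ∈ H0 (cfg t u) (4, fun _ => 1) := by
    rw [mem_H0 _ _ _ Q4_ne_zero]
    refine ⟨by norm_num, Q4_hom, fun i => ?_⟩
    simpa [cfg] using Q4_mem _
  rw [h, Submodule.mem_bot] at this
  exact Q4_ne_zero this

lemma cfg_nef (hinj : Function.Injective (Fin.append t u : Fin (12 + 3) → k)) :
    Nef (cfg t u) (4, fun _ => 1) := by
  refine ⟨fun i => by norm_num, ?_⟩
  intro n F c hF hirr hc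
  have hF0 : F ≠ 0 := hirr.ne_zero
  simp only [inter, one_mul]
  by_cases hd : Q4 ∣ F
  · have hassoc : Associated (Q4 : MvPolynomial (Fin 3) k) F :=
      Q4_prime.irreducible.associated_of_dvd hirr hd
    obtain ⟨v, hv⟩ := hassoc
    have hvu := v.isUnit
    rw [MvPolynomial.isUnit_iff_totalDegree_of_isReduced] at hvu
    have hvC : (v : MvPolynomial (Fin 3) k) = C (coeff 0 (v : MvPolynomial (Fin 3) k)) :=
      totalDegree_eq_zero_iff_eq_C.1 hvu.2
    have ha : coeff 0 (v : MvPolynomial (Fin 3) k) ≠ 0 := hvu.1.ne_zero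
    have hFe : F = C (coeff 0 (v : MvPolynomial (Fin 3) k)) * Q4 := by
      rw [← hv, mul_comm, ← hvC]
    have hn : n = 4 := by
      have h2 : F.IsHomogeneous 4 := by
        rw [hFe]; exact Q4_hom.C_mul _
      exact hF.inj_right h2 hF0
    have hc1 : ∀ i, c i ≤ 1 := by
      intro i
      have := (hc i).1
      rw [hFe] at this
      exact le_one_of_mem ha this
    have : ∑ i, (c i : ℤ) ≤ ∑ _i : Fin 15, (1 : ℤ) :=
      Finset.sum_le_sum fun i _ => by exact_mod_cast hc1 i
    simp at this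
    rw [hn]
    push_cast
    linarith
  · have hp0 : par F ≠ 0 := fun h => hd (Q4_dvd_of_par hF h)
    have hdvd : (∏ i, (Polynomial.X -
        Polynomial.C ((Fin.append t u : Fin (12 + 3) → k) i)) ^ (c i)) ∣ par F := by
      apply Finset.prod_dvd_of_coprime
      · intro i _ j _ hij
        exact (Polynomial.pairwise_coprime_X_sub_C hinj hij).pow
      · intro i _
        exact par_mem _ (hc i).1
    have h1 := Polynomial.natDegree_le_of_dvd hdvd hp0
    have h2 : (∏ i, (Polynomial.X -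
        Polynomial.C ((Fin.append t u : Fin (12 + 3) → k) i)) ^ (c i)).natDegree = ∑ i, c i := by
      rw [Polynomial.natDegree_prod_of_monic]
      · apply Finset.sum_congr rfl
        intro i _
        rw [Polynomial.natDegree_pow, Polynomial.natDegree_X_sub_C, mul_one]
      · intro i _
        exact (Polynomial.monic_X_sub_C _).pow _
    have h3 := par_deg hF
    rw [h2] at h1
    have h4 : ((∑ i, c i : ℕ) : ℤ) ≤ ((4 * n : ℕ) : ℤ) := by exact_mod_cast h1.trans h3
    push_cast at h4
    linarith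

lemma cfg_notB (hP : P12 b = ∏ i, (Polynomial.X - Polynomial.C (t i)))
    (hinj : Function.Injective (Fin.append t u : Fin (12 + 3) → k))
    (hu : (u 0 + u 1 + u 2) ^ 2 ≠ u 0 * u 1 + u 0 * u 2 + u 1 * u 2) :
    ¬ CondB (cfg t u) (4, fun _ => 1) := by
  rintro ⟨⟨d, e⟩, hE, hEff, hEff', -, hint⟩
  obtain ⟨G, hG, hG0⟩ := Submodule.exists_mem_ne_zero_of_ne_bot hEff
  obtain ⟨G', hG', hG'0⟩ := Submodule.exists_mem_ne_zero_of_ne_bot hEff'
  rw [mem_H0 _ _ _ hG0] at hG
  rw [mem_H0 _ _ _ hG'0] at hG'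
  simp only [Prod.fst_sub, Prod.snd_sub, Pi.sub_apply] at hG hG'
  obtain ⟨hd0, hGh, hGm⟩ := hG
  obtain ⟨hd4, hGh', hGm'⟩ := hG'
  have hFh : (G * G').IsHomogeneous 4 := by
    have := hGh.mul hGh'
    have e4 : d.toNat + (4 - d).toNat = 4 := by omega
    rwa [e4] at this
  have hQ : Q4 ∣ G * G' := by
    apply unique_quartic hP hinj hu hFh
    intro i
    have h1 := Ideal.mul_mem_mul (hGm i) (hGm' i)
    rw [← pow_add] at h1
    have hne : (e i).toNat + (1 - e i).toNat ≠ 0 := by omega
    exact Ideal.pow_le_self hne h1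
  rcases Q4_prime.dvd_or_dvd hQ with h | h
  · obtain ⟨h4, a, ha, hGa⟩ := scalar_of_dvd hGh hG0 (by omega) h
    have hz : (4 - d).toNat = 0 := by omega
    rw [hz] at hGh'
    obtain ⟨a', hGa'⟩ := const_of_hom_zero hGh'
    have ha' : a' ≠ 0 := by
      intro h0; rw [h0, C_0] at hGa'; exact hG'0 hGa'
    have he : ∀ i, e i = 1 := by
      intro i
      have h1 := hGm' i
      rw [hGa'] at h1
      have h2 := eq_zero_of_const_mem ha' h1
      have h3 := hGm i
      rw [hGa] at h3
      have h4 := le_one_of_mem ha h3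
      omega
    have hd : d = 4 := by omega
    simp [inter, hd, he] at hint
  · obtain ⟨h4, a, ha, hGa⟩ := scalar_of_dvd hGh' hG'0 (by omega) h
    have hz : d.toNat = 0 := by omega
    rw [hz] at hGh
    obtain ⟨a', hGa'⟩ := const_of_hom_zero hGh
    have ha' : a' ≠ 0 := by
      intro h0; rw [h0, C_0] at hGa'; exact hG0 hGa'
    have he : ∀ i, e i = 0 := by
      intro i
      have h1 := hGm i
      rw [hGa'] at h1
      have h2 := eq_zero_of_const_mem ha' h1
      have h3 := hGm' i
      rw [hGa] at h3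
      have h4 := le_one_of_mem ha h3
      omega
    have hd : d = 0 := by omega
    apply hE
    ext i
    · exact hd
    · exact he i

lemma cub_mem (hP : P12 b = ∏ i, (Polynomial.X - Polynomial.C (t i))) (i : Fin 12) :
    cub b ∈ pointIdeal (pt (t i)) := by
  have h2 : (P12 b).eval (t i) = 0 := by
    rw [hP, Polynomial.eval_prod]
    exact Finset.prod_eq_zero (Finset.mem_univ i) (by simp)
  rw [P12, Polynomial.eval_prod, Finset.prod_eq_zero_iff] at h2
  obtain ⟨j, -, hj⟩ := h2
  simp only [Polynomial.eval_sub, Polynomial.eval_pow, Polynomial.eval_X,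
    Polynomial.eval_C] at hj
  rw [cub, Finset.prod_eq_mul_prod_sdiff_singleton_of_mem (Finset.mem_univ j)]
  apply Ideal.mul_mem_right
  have e : (X 1 - X 0 - C (b j) * X 2 : MvPolynomial (Fin 3) k) =
      (X 1 - C (pt (t i) 1) * X 2) - (X 0 - C (pt (t i) 0) * X 2) := by
    have hj' : b j = t i ^ 4 - t i := by linear_combination -hj
    simp [pt, hj']
    ring
  rw [e]
  exact Ideal.sub_mem _ (lin1_mem _ (by simp [pt])) (lin0_mem _ (by simp [pt]))

lemma cub_ne_zero : cub b ≠ 0 := by
  intro h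
  have := congrArg (eval ![0, 1, 0]) h
  simp [cub, Fin.prod_univ_three] at this

/-- multiplicities of the residual class `mL - C` -/
def res (m : ℕ) : Fin 15 → ℕ := (Fin.append (fun _ => m - 1) (fun _ => m) : Fin (12 + 3) → ℕ)

lemma cfg_map (hP : P12 b = ∏ i, (Polynomial.X - Polynomial.C (t i))) {m : ℕ} (hm : 1 ≤ m) :
    Submodule.map (LinearMap.mulLeft k (cub b))
      (H0 (cfg t u) (((4 * m - 3 : ℕ) : ℤ), fun i => ((res m i : ℕ) : ℤ))) ≤
      H0 (cfg t u) (((4 * m : ℕ) : ℤ), fun _ => ((m : ℕ) : ℤ)) := by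
  rintro _ ⟨G, hG, rfl⟩
  rw [SetLike.mem_coe, mem_H0_coe] at hG
  rw [LinearMap.mulLeft_apply,
    show ((fun _ => ((m : ℕ) : ℤ)) : Fin 15 → ℤ) = fun i => (((fun _ => m) : Fin 15 → ℕ) i : ℤ)
      from rfl, mem_H0_coe]
  refine ⟨?_, ?_⟩
  · have := (cub_hom b).mul hG.1
    rwa [show 3 + (4 * m - 3) = 4 * m by omega] at this
  · intro i
    have hi := hG.2 i
    revert hi
    refine Fin.addCases (m := 12) (n := 3) (fun j => ?_) (fun j => ?_) i
    · intro hi
      simp only [res, cfg, Fin.append_left] at hi ⊢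
      have h1 := Ideal.mul_mem_mul (cub_mem hP j) hi
      rw [← pow_succ'] at h1
      rwa [show m - 1 + 1 = m by omega] at h1
    · intro hi
      simp only [res, cfg, Fin.append_right] at hi ⊢
      exact Ideal.mul_mem_left _ _ hi

lemma cfg_h1 (hP : P12 b = ∏ i, (Polynomial.X - Polynomial.C (t i))) (n : ℕ) :
    0 < h1 (cfg t u) (((4 * (n + 1) : ℕ) : ℤ), fun _ => ((n + 1 : ℕ) : ℤ)) := by
  have hmap := cfg_map (u := u) hP (m := n + 1) (by omega)
  have hQm : Q4 ^ (n + 1) ∈ H0 (cfg t u) (((4 * (n + 1) : ℕ) : ℤ), fun _ => ((n + 1 : ℕ) : ℤ)) := by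
    rw [show ((fun _ => ((n + 1 : ℕ) : ℤ)) : Fin 15 → ℤ) =
      fun i => (((fun _ => n + 1) : Fin 15 → ℕ) i : ℤ) from rfl, mem_H0_coe]
    exact ⟨Q4_hom.pow (n + 1), fun i => Ideal.pow_mem_pow (Q4_mem _) _⟩
  have hQn : Q4 ^ (n + 1) ∉ Submodule.map (LinearMap.mulLeft k (cub b))
      (H0 (cfg t u) (((4 * (n + 1) - 3 : ℕ) : ℤ), fun i => ((res (n + 1) i : ℕ) : ℤ))) := by
    rintro ⟨G, -, hG⟩
    have := congrArg (eval ![1, 1, 0]) hG
    simp [cub, Q4, Fin.prod_univ_three] at this
  have hlt : Module.finrank k (Submodule.map (LinearMap.mulLeft k (cub b))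
      (H0 (cfg t u) (((4 * (n + 1) - 3 : ℕ) : ℤ), fun i => ((res (n + 1) i : ℕ) : ℤ)))) <
      Module.finrank k
        (H0 (cfg t u) (((4 * (n + 1) : ℕ) : ℤ), fun _ => ((n + 1 : ℕ) : ℤ))) := by
    apply Submodule.finrank_lt_finrank_of_lt
    exact lt_of_le_of_ne hmap fun h => hQn (h ▸ hQm)
  have heq : Module.finrank k (Submodule.map (LinearMap.mulLeft k (cub b))
      (H0 (cfg t u) (((4 * (n + 1) - 3 : ℕ) : ℤ), fun i => ((res (n + 1) i : ℕ) : ℤ)))) =
      Module.finrank k
        (H0 (cfg t u) (((4 * (n + 1) - 3 : ℕ) : ℤ), fun i => ((res (n + 1) i : ℕ) : ℤ))) :=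
    (Submodule.equivMapOfInjective _
      (fun x y h => mul_left_cancel₀ cub_ne_zero (by simpa using h)) _).symm.finrank_eq
  have hge := H0_ge (r := 15) (Fin.append t u : Fin (12 + 3) → k)
    (fun i => (Fin.append t u : Fin (12 + 3) → k) i ^ 4) (4 * (n + 1) - 3) (res (n + 1))
  have hsum : ∑ i : Fin 15, (res (n + 1) i + 1).choose 2 = 12 * (n + 1).choose 2 +
      3 * (n + 1 + 1).choose 2 := by
    rw [show (∑ i : Fin 15, (res (n + 1) i + 1).choose 2) =
      ∑ i : Fin (12 + 3), (res (n + 1) i + 1).choose 2 from rfl, Fin.sum_univ_add]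
    simp [res, Fin.append_left, Fin.append_right]
  rw [hsum, show 4 * (n + 1) - 3 + 2 = 4 * n + 2 + 1 by omega] at hge
  rw [heq] at hlt
  exact h1_pos_of (cfg t u) n _ hge hlt

end Parts

/-- Over every algebraically closed field there are fifteen distinct points of the plane such that
`L = 4H - ∑ Eᵢ` is effective and nef, fails condition (B), and has `h¹(mL) > 0` for all `m ≥ 1`. -/
theorem result (k : Type*) [Field k] [IsAlgClosed k] :
    ∃ p : Fin 15 → Fin 3 → k, DistinctPoints p ∧
      Effective p (4, fun _ => 1) ∧ Nef p (4, fun _ => 1) ∧ ¬ CondB p (4, fun _ => 1) ∧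
      ∀ m : ℕ, 1 ≤ m → 0 < h1 p (m • ((4, fun _ => 1) : Cls 15)) := by
  obtain ⟨b, t, u, hP, hinj, hu⟩ := exists_config k
  refine ⟨cfg t u, cfg_distinct hinj, cfg_effective, cfg_nef hinj, cfg_notB hP hinj hu, ?_⟩
  intro m hm
  obtain ⟨n, rfl⟩ : ∃ n, m = n + 1 := ⟨m - 1, by omega⟩
  have hsm : (n + 1) • ((4, fun _ => 1) : Cls 15) =
      (((4 * (n + 1) : ℕ) : ℤ), fun _ => ((n + 1 : ℕ) : ℤ)) := smul_L15 (n + 1)
  rw [hsm]
  exact cfg_h1 hP n

end Main

end Pool.Agent.Results.MP_fa7d23_ag.NefNotB
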